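import Pool.Agent.helper68.SF.SpecJ

/-! # Project sf: JS, the main sum -/

set_option autoImplicit false

namespace SF

open Set

/-- only finitely many vectors are short -/
theorem JS_fin {l l' : ℝ} (hl : 0 < l) (hl' : 0 < l') :
    {v : ℤ × ℤ | |(v.1 : ℝ)| * l + |(v.2 : ℝ)| * l' < 1}.Finite := by
  obtain ⟨N, hN⟩ := exists_nat_gt (1 / l)
  obtain ⟨N', hN'⟩ := exists_nat_gt (1 / l')
  refine (((Set.finite_Icc (-(N : ℤ)) N).prod (Set.finite_Icc (-(N' : ℤ)) N'))).subset ?_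
  rintro ⟨a, b⟩ h
  have h' : |(a : ℝ)| * l + |(b : ℝ)| * l' < 1 := h
  have h1 : |(a : ℝ)| * l < 1 := by
    have : 0 ≤ |(b : ℝ)| * l' := by positivity
    linarith
  have h2 : |(b : ℝ)| * l' < 1 := by
    have : 0 ≤ |(a : ℝ)| * l := by positivity
    linarith
  have h3 : |(a : ℝ)| < N := by
    rw [← lt_div_iff₀ hl] at h1
    linarith
  have h4 : |(b : ℝ)| < N' := by
    rw [← lt_div_iff₀ hl'] at h2
    linarith
  have h5 : |a| ≤ (N : ℤ) := by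
    have : |(a : ℝ)| ≤ N := h3.le
    exact_mod_cast this
  have h6 : |b| ≤ (N' : ℤ) := by
    have : |(b : ℝ)| ≤ N' := h4.le
    exact_mod_cast this
  exact ⟨abs_le.1 h5, abs_le.1 h6⟩

theorem JS (hBW : BW_stmt) (hPJ : PJ_stmt) (hMS : MS_stmt) (hPHI : PHI_stmt) : JS_stmt := by
  classical
  intro g hg l l' hl hl'
  obtain ⟨_, _, _, hPh, _⟩ := hPHI g hg
  obtain ⟨hpo, hpp, _⟩ := hPJ
  set F : ℤ × ℤ → ℝ := fun v => psi (XX v 0 1) * (Real.sign ((v.1 : ℝ) * v.2) *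
    Ph g (|(v.1 : ℝ)| * l + |(v.2 : ℝ)| * l')) with hF
  have hsupp : {v : ℤ × ℤ | F v ≠ 0}.Finite := by
    refine (JS_fin hl hl').subset fun v hv => ?_
    by_contra hcon
    have h1 : 1 ≤ |(v.1 : ℝ)| * l + |(v.2 : ℝ)| * l' := not_lt.1 hcon
    apply hv
    show psi (XX v 0 1) * (Real.sign ((v.1 : ℝ) * v.2) *
      Ph g (|(v.1 : ℝ)| * l + |(v.2 : ℝ)| * l')) = 0
    rw [hPh _ h1, mul_zero, mul_zero]
  have hsup : (Function.support F).Finite := hsupp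
  -- symmetries
  have hneg : ∀ v ∈ Pv, F (-v) = F v := by
    intro v hv
    obtain ⟨n, hn⟩ := (hMS v hv).2.2.2
    have h1 := (hn 0 1 one_pos).1
    show psi (XX (-v) 0 1) * (Real.sign (((-v).1 : ℤ) * ((-v).2 : ℤ)) *
      Ph g (|(((-v).1 : ℤ) : ℝ)| * l + |(((-v).2 : ℤ) : ℝ)| * l')) = F v
    rw [h1, hpp]
    have h2 : (((-v).1 : ℤ) : ℝ) = -(v.1 : ℝ) := by simp
    have h3 : (((-v).2 : ℤ) : ℝ) = -(v.2 : ℝ) := by simp
    rw [h2, h3, abs_neg, abs_neg, neg_mul_neg]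
  have hrefl : ∀ v ∈ Pv, F (-v.1, v.2) = F v := by
    intro v hv
    obtain ⟨n, hn⟩ := (hMS v hv).2.2.1
    have h1 := (hn 0 1 one_pos).1
    rw [neg_zero] at h1
    have h4 : psi (XX v 0 1) = -psi (XX (-v.1, v.2) 0 1) := by
      rw [h1, hpp, hpo]
    show psi (XX (-v.1, v.2) 0 1) * (Real.sign (((-v.1 : ℤ) : ℝ) * v.2) *
      Ph g (|((-v.1 : ℤ) : ℝ)| * l + |(v.2 : ℝ)| * l')) = psi (XX v 0 1) *
        (Real.sign ((v.1 : ℝ) * v.2) * Ph g (|(v.1 : ℝ)| * l + |(v.2 : ℝ)| * l'))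
    rw [h4]
    push_cast
    rw [abs_neg, neg_mul, Real.sign_neg]
    ring
  have hPn : ∀ v : ℤ × ℤ, v ∈ Pv → -v ∈ Pv := by
    intro v hv
    have h1 : Int.gcd v.1 v.2 = 1 := hv
    show Int.gcd (-v).1 (-v).2 = 1
    simpa using h1
  have hPr : ∀ v : ℤ × ℤ, v ∈ Pv → (-v.1, v.2) ∈ Pv := by
    intro v hv
    have h1 : Int.gcd v.1 v.2 = 1 := hv
    show Int.gcd (-v.1) v.2 = 1
    simpa using h1
  set Q1 : Set (ℤ × ℤ) := {v | v ∈ Pv ∧ 0 < v.1 ∧ 0 < v.2} with hQ1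
  set Q2 : Set (ℤ × ℤ) := {v | v ∈ Pv ∧ v.1 < 0 ∧ 0 < v.2} with hQ2
  set Q3 : Set (ℤ × ℤ) := {v | v ∈ Pv ∧ v.1 < 0 ∧ v.2 < 0} with hQ3
  set Q4 : Set (ℤ × ℤ) := {v | v ∈ Pv ∧ 0 < v.1 ∧ v.2 < 0} with hQ4
  have e3 : ∑ᶠ v ∈ Q1, F v = ∑ᶠ v ∈ Q3, F v := by
    refine finsum_mem_eq_of_bijOn (fun v => -v) ⟨?_, ?_, ?_⟩ ?_
    · rintro v ⟨h1, h2, h3⟩
      exact ⟨hPn v h1, by simpa using h2, by simpa using h3⟩
    · intro v _ w _ h
      exact neg_injective h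
    · rintro v ⟨h1, h2, h3⟩
      exact ⟨-v, ⟨hPn v h1, by simpa using h2, by simpa using h3⟩, neg_neg v⟩
    · rintro v ⟨h1, _⟩
      exact (hneg v h1).symm
  have e4 : ∑ᶠ v ∈ Q2, F v = ∑ᶠ v ∈ Q4, F v := by
    refine finsum_mem_eq_of_bijOn (fun v => -v) ⟨?_, ?_, ?_⟩ ?_
    · rintro v ⟨h1, h2, h3⟩
      exact ⟨hPn v h1, by simpa using h2, by simpa using h3⟩
    · intro v _ w _ h
      exact neg_injective h
    · rintro v ⟨h1, h2, h3⟩
      exact ⟨-v, ⟨hPn v h1, by simpa using h2, by simpa using h3⟩, neg_neg v⟩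
    · rintro v ⟨h1, _⟩
      exact (hneg v h1).symm
  have e2 : ∑ᶠ v ∈ Q1, F v = ∑ᶠ v ∈ Q2, F v := by
    refine finsum_mem_eq_of_bijOn (fun v => (-v.1, v.2)) ⟨?_, ?_, ?_⟩ ?_
    · rintro v ⟨h1, h2, h3⟩
      exact ⟨hPr v h1, by simpa using h2, h3⟩
    · intro v _ w _ h
      have h1 := congrArg Prod.fst h
      have h2 := congrArg Prod.snd h
      exact Prod.ext (neg_injective h1) h2
    · rintro v ⟨h1, h2, h3⟩
      exact ⟨(-v.1, v.2), ⟨hPr v h1, by simpa using h2, h3⟩, by simp⟩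
    · rintro v ⟨h1, _⟩
      exact (hrefl v h1).symm
  have hsplit : ∑ᶠ v ∈ Pv, F v = ∑ᶠ v ∈ (Q1 ∪ Q2) ∪ (Q3 ∪ Q4), F v := by
    refine finsum_mem_inter_support_eq F _ _ ?_
    ext v
    constructor
    · rintro ⟨h1, h2⟩
      refine ⟨?_, h2⟩
      have h3 : v.1 ≠ 0 := by
        intro h
        apply h2
        show psi (XX v 0 1) * (Real.sign ((v.1 : ℝ) * v.2) * _) = 0
        rw [h, Int.cast_zero, zero_mul, Real.sign_zero, zero_mul, mul_zero]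
      have h4 : v.2 ≠ 0 := by
        intro h
        apply h2
        show psi (XX v 0 1) * (Real.sign ((v.1 : ℝ) * v.2) * _) = 0
        rw [h, Int.cast_zero, mul_zero, Real.sign_zero, zero_mul, mul_zero]
      rcases lt_or_gt_of_ne h3 with h5 | h5 <;> rcases lt_or_gt_of_ne h4 with h6 | h6
      · exact Or.inr (Or.inl ⟨h1, h5, h6⟩)
      · exact Or.inl (Or.inr ⟨h1, h5, h6⟩)
      · exact Or.inr (Or.inr ⟨h1, h5, h6⟩)
      · exact Or.inl (Or.inl ⟨h1, h5, h6⟩)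
    · rintro ⟨h1, h2⟩
      refine ⟨?_, h2⟩
      rcases h1 with (h1 | h1) | (h1 | h1) <;> exact h1.1
  have hsf : ∀ s : Set (ℤ × ℤ), (s ∩ Function.support F).Finite := fun s =>
    hsup.subset inter_subset_right
  have hsum : ∑ᶠ v ∈ Pv, F v = 4 * ∑ᶠ v ∈ Q1, F v := by
    rw [hsplit, finsum_mem_union' ?_ (hsf _) (hsf _), finsum_mem_union' ?_ (hsf _) (hsf _),
      finsum_mem_union' ?_ (hsf _) (hsf _), ← e3, ← e4, ← e2]
    · ring
    · rw [Set.disjoint_left]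
      rintro v ⟨_, _, h3⟩ ⟨_, h5, _⟩
      omega
    · rw [Set.disjoint_left]
      rintro v ⟨_, h2, _⟩ ⟨_, h5, _⟩
      omega
    · rw [Set.disjoint_left]
      rintro v (⟨_, _, h3⟩ | ⟨_, _, h3⟩) (⟨_, _, h6⟩ | ⟨_, _, h6⟩) <;> omega
  have hjp : jp g l l' = ∑ᶠ v ∈ Q1, F v := by
    unfold jp
    rw [← finsum_mem_univ]
    refine finsum_mem_eq_of_bijOn md hBW.2.2 ?_
    intro w _
    obtain ⟨_, _, _, _, _, h1, h2⟩ := hBW.1 w
    have h1' : (0 : ℝ) < ((md w).1 : ℝ) := by exact_mod_cast h1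
    have h2' : (0 : ℝ) < ((md w).2 : ℝ) := by exact_mod_cast h2
    show pw w * Ph g ((md w).1 * l + (md w).2 * l') = psi (XX (md w) 0 1) *
      (Real.sign (((md w).1 : ℝ) * (md w).2) * Ph g (|((md w).1 : ℝ)| * l + |((md w).2 : ℝ)| * l'))
    rw [Real.sign_of_pos (mul_pos h1' h2'), abs_of_pos h1', abs_of_pos h2', one_mul]
    rfl
  refine ⟨?_, ?_⟩
  · have h1 : {w : List Bool | Ph g ((md w).1 * l + (md w).2 * l') ≠ 0} ⊆
        md ⁻¹' {v : ℤ × ℤ | |(v.1 : ℝ)| * l + |(v.2 : ℝ)| * l' < 1} := by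
      intro w hw
      obtain ⟨_, _, _, _, _, h1, h2⟩ := hBW.1 w
      have h1' : (0 : ℝ) < ((md w).1 : ℝ) := by exact_mod_cast h1
      have h2' : (0 : ℝ) < ((md w).2 : ℝ) := by exact_mod_cast h2
      show |((md w).1 : ℝ)| * l + |((md w).2 : ℝ)| * l' < 1
      rw [abs_of_pos h1', abs_of_pos h2']
      by_contra hcon
      exact hw (hPh _ (not_lt.1 hcon))
    refine Set.Finite.subset ?_ h1
    exact (JS_fin hl hl').preimage fun w _ w' _ h => hBW.2.2.injOn (mem_univ w) (mem_univ w') h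
  · rw [hjp]
    exact hsum

end SF
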