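import Pool.Agent.helper1.SF.SpecA

/-!
# Project SF, module LNA: the wave is additive in the profile
-/

set_option autoImplicit false

namespace SF

open Pool.Agent.helper72.Sq MeasureTheory Set
open scoped ContDiff

theorem LNA_prof {g h : ℝ → ℝ} (hg : Prof g) (hh : Prof h) : Prof (fun a => g a + h a) where
  smooth := hg.smooth.add hh.smooth
  lo a ha := by rw [hg.lo a ha, hh.lo a ha, add_zero]
  hi a ha := by rw [hg.hi a ha, hh.hi a ha, add_zero]

theorem LNA_d0 {g : ℝ → ℝ} (hg : Prof g) {a : ℝ} (ha : 3 < a) : deriv g a = 0 := by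
  have h1 : g =ᶠ[nhds a] fun _ => 0 := by
    filter_upwards [Ioi_mem_nhds ha] with x hx
    exact hg.hi x (le_of_lt hx)
  rw [h1.deriv_eq]
  simp

theorem LNA_dc {g : ℝ → ℝ} (hg : Prof g) : Continuous (deriv g) :=
  hg.smooth.continuous_deriv (by simp)

theorem LNA_z {g : ℝ → ℝ} (hg : Prof g) {A : ℝ} (hA : 0 < A) (c p : ℝ) {R : ℝ} (hR0 : 0 ≤ R)
    (hR : 3 / A + c ^ 2 < R ^ 2) {t : ℝ} (ht : R ≤ |t|) :
    deriv g (A * (p ^ 2 + t ^ 2 + 1 - c ^ 2)) = 0 := by
  apply LNA_d0 hg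
  have h1 : R ^ 2 ≤ t ^ 2 := by
    rw [← sq_abs t]
    exact pow_le_pow_left₀ hR0 ht 2
  have h2 : 3 / A < p ^ 2 + t ^ 2 + 1 - c ^ 2 := by nlinarith [sq_nonneg p]
  rw [div_lt_iff₀ hA] at h2
  linarith

theorem LNA_i {g : ℝ → ℝ} (hg : Prof g) {A : ℝ} (hA : 0 < A) (c p : ℝ) :
    Integrable (fun t => deriv g (A * (p ^ 2 + t ^ 2 + 1 - c ^ 2))) := by
  obtain ⟨R, hR0, hR⟩ : ∃ R : ℝ, 0 ≤ R ∧ 3 / A + c ^ 2 < R ^ 2 := by
    refine ⟨3 / A + c ^ 2 + 1, by positivity, ?_⟩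
    have : 0 ≤ 3 / A + c ^ 2 := by positivity
    nlinarith
  apply Continuous.integrable_of_hasCompactSupport
  · exact (LNA_dc hg).comp (by fun_prop)
  · apply HasCompactSupport.intro (isCompact_Icc (a := -R) (b := R))
    intro t ht
    apply LNA_z hg hA c p hR0 hR
    by_contra h
    apply ht
    rw [not_le, abs_lt] at h
    exact ⟨h.1.le, h.2.le⟩

theorem LNA_c {g : ℝ → ℝ} (hg : Prof g) {A : ℝ} (hA : 0 < A) (c : ℝ) :
    Continuous (fun p => ∫ t : ℝ, deriv g (A * (p ^ 2 + t ^ 2 + 1 - c ^ 2))) := by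
  obtain ⟨R, hR0, hR⟩ : ∃ R : ℝ, 0 ≤ R ∧ 3 / A + c ^ 2 < R ^ 2 := by
    refine ⟨3 / A + c ^ 2 + 1, by positivity, ?_⟩
    have : 0 ≤ 3 / A + c ^ 2 := by positivity
    nlinarith
  have h1 : (fun p => ∫ t : ℝ, deriv g (A * (p ^ 2 + t ^ 2 + 1 - c ^ 2))) =
      fun p => ∫ t in (-R)..R, deriv g (A * (p ^ 2 + t ^ 2 + 1 - c ^ 2)) := by
    funext p
    symm
    apply intervalIntegral.integral_eq_integral_of_support_subset
    intro t ht
    have h2 : |t| < R := by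
      by_contra h
      exact ht (LNA_z hg hA c p hR0 hR (not_lt.1 h))
    rw [abs_lt] at h2
    exact ⟨h2.1, h2.2.le⟩
  rw [h1]
  apply intervalIntegral.continuous_parametric_intervalIntegral_of_continuous'
  exact (LNA_dc hg).comp (by fun_prop)

theorem LNA_NN {g h : ℝ → ℝ} (hg : Prof g) (hh : Prof h) {A : ℝ} (hA : 0 < A) (c : ℝ) :
    NN (fun a => g a + h a) A c = NN g A c + NN h A c := by
  unfold NN
  rw [← mul_add, ← intervalIntegral.integral_add ((LNA_c hg hA c).intervalIntegrable _ _)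
    ((LNA_c hh hA c).intervalIntegrable _ _)]
  congr 1
  apply intervalIntegral.integral_congr
  intro p _
  beta_reduce
  rw [← integral_add (LNA_i hg hA c p) (LNA_i hh hA c p)]
  congr 1
  funext t
  exact deriv_add (hg.smooth.differentiable (by simp) _) (hh.smooth.differentiable (by simp) _)

theorem LNA_k1 {g h : ℝ → ℝ} (hg : Prof g) (hh : Prof h) (s x : ℝ) {y : ℝ} (hy : 0 < y) :
    k1 (fun a => g a + h a) s x y = k1 g s x y + k1 h s x y := by
  unfold k1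
  rw [LNA_NN hg hh (by positivity)]
  ring

theorem LNA_Bk {g h : ℝ → ℝ} (hg : Prof g) (hh : Prof h) (s x : ℝ) {y : ℝ} (hy : 0 < y)
    (x0 k : ℝ) :
    Bk (fun a => g a + h a) s x y x0 k = Bk g s x y x0 k + Bk h s x y x0 k := by
  unfold Bk c5
  simp only [LNA_k1 hg hh s _ hy, b1]
  ring

theorem LNA_RR (hRA : RA_stmt) {g h : ℝ → ℝ} (hg : Prof g) (hh : Prof h) (s x : ℝ) {y : ℝ}
    (hy : 0 < y) (x0 : ℝ) :
    RR (fun a => g a + h a) s x y x0 = RR g s x y x0 + RR h s x y x0 := by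
  unfold RR
  rw [← ((hRA g hg x0).2.2 s x y hy).1.tsum_add ((hRA h hh x0).2.2 s x y hy).1]
  congr 1
  funext k
  exact LNA_Bk hg hh s x hy x0 k

theorem LNA_Y {v : ℤ × ℤ} (hv : v ∈ Pv) (x : ℝ) {y : ℝ} (hy : 0 < y) : 0 < YY v x y := by
  unfold YY Yr
  apply div_pos hy
  by_cases h0 : v.1 = 0
  · have h1 : Int.gcd v.1 v.2 = 1 := hv
    rw [h0, Int.gcd_zero_left] at h1
    have h2 : (v.2 : ℝ) ≠ 0 := by
      intro h
      have : v.2 = 0 := by exact_mod_cast h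
      rw [this] at h1
      simp at h1
    rw [h0]
    simp only [Int.cast_zero, zero_mul, zero_add]
    positivity
  · have h1 : (v.1 : ℝ) ≠ 0 := by exact_mod_cast h0
    positivity

theorem LNA_fin (hLF : LF_stmt) {g : ℝ → ℝ} (hg : Prof g) (s x : ℝ) {y : ℝ} (hy : 0 < y) :
    (Pv ∩ Function.support (fun v => FF g v s x y)).Finite := by
  have h1 := hLF g hg 0 1 (|s| + 1) (|x| + y + 1 / y) (by norm_num)
    (by positivity) (by positivity)
  apply h1.subset
  rintro v ⟨hv, hv2⟩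
  have hy' : 0 < 1 / y := by positivity
  refine ⟨hv, s, x, y, by linarith, by linarith, ?_, by linarith [abs_nonneg x], hv2⟩
  rw [div_le_iff₀ (by positivity)]
  have h2 : y * (1 / y) = 1 := by field_simp
  nlinarith [abs_nonneg x, mul_nonneg hy.le (abs_nonneg x), mul_pos hy hy]

theorem LNA_add (hRA : RA_stmt) (hLF : LF_stmt) {g h : ℝ → ℝ} (hg : Prof g) (hh : Prof h)
    (s x : ℝ) {y : ℝ} (hy : 0 < y) :
    ww (fun a => g a + h a) s x y = ww g s x y + ww h s x y := by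
  unfold ww
  rw [← mul_add, ← finsum_mem_add_distrib' (LNA_fin hLF hg s x hy) (LNA_fin hLF hh s x hy)]
  congr 1
  apply finsum_mem_congr rfl
  intro v hv
  unfold FF
  rw [LNA_RR hRA hg hh s _ (LNA_Y hv x hy)]
  unfold b0
  ring

theorem LNA_zero (s x y : ℝ) : ww (fun _ => 0) s x y = 0 := by
  have h1 : ∀ A c, NN (fun _ => 0) A c = 0 := by
    intro A c
    unfold NN
    simp
  have h2 : ∀ v, FF (fun _ => 0) v s x y = 0 := by
    intro v
    unfold FF RR Bk c5 k1 b0 b1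
    simp [h1]
  unfold ww
  simp [h2]

theorem LNA (hRA : RA_stmt) (hLF : LF_stmt) : LNA_stmt := by
  refine ⟨fun g h hg hh => LNA_prof hg hh, ?_, LNA_zero,
    fun g h hg hh s x y hy => LNA_add hRA hLF hg hh s x hy⟩
  exact ⟨contDiff_const, fun _ _ => rfl, fun _ _ => rfl⟩

end SF
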