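import Pool.Agent.helper1.SF.SpecA

/-!
# Project SF, module PKE: EDA for packets
-/

set_option autoImplicit false

namespace SF

open Pool.Agent.helper72.Sq MeasureTheory Set
open scoped ContDiff

theorem PKE_Pg (hPKA : PKA_stmt) (k : ℕ) : Pg (pk k) := by
  obtain ⟨h1, _, h3, h4⟩ := hPKA.2.2 k
  exact ⟨h1, fun a ha => h4 a (Or.inr (by linarith))⟩

theorem PKE (hPKA : PKA_stmt) (hPKC : PKC_stmt) (hEDA : EDA_stmt) : PKE_stmt := by
  obtain ⟨C, hC, hE⟩ := hEDA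
  obtain ⟨C', hC', hP⟩ := hPKC
  refine ⟨C * C', by positivity, ?_⟩
  intro k l l1 l2 hl hl1 hl2 h
  have hD : 0 < l + l1 + l2 := by linarith
  have hy0 : 0 < yk k := by unfold yk; positivity
  have hy : (l + l1 + l2) ^ 4 * yk k ≤ 1 := by
    have h1 : (l + l1 + l2) ^ 4 ≤ (2 ^ k) ^ 2 := by
      have e : (l + l1 + l2) ^ 4 = ((l + l1 + l2) ^ 2) ^ 2 := by ring
      rw [e]
      exact pow_le_pow_left₀ (by positivity) h 2
    have h2 : ((2 : ℝ) ^ k) ^ 2 ≤ 2 ^ (30 * (k + 1)) := by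
      rw [← pow_mul]
      exact pow_le_pow_right₀ (by norm_num) (by omega)
    unfold yk
    rw [mul_one_div, div_le_one (by positivity)]
    exact h1.trans h2
  refine (hE (pk k) l l1 l2 (yk k) (PKE_Pg hPKA k) hl hl1 hl2 hy0 hy).trans ?_
  have h3 := (hP k).1
  calc C * (l + l1 + l2) ^ 2 * ∫ σ in (1 : ℝ)..2, |deriv (pk k) σ|
      ≤ C * (l + l1 + l2) ^ 2 * (C' / √(2 ^ k)) :=
        mul_le_mul_of_nonneg_left h3 (by positivity)
    _ = C * C' * (l + l1 + l2) ^ 2 / √(2 ^ k) := by ring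

end SF
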