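import Pool.Agent.helper68.SF.SpecW

/-! # Project sf: PSA, the class `Cl` is closed under directional derivatives -/

set_option autoImplicit false

namespace SF

open scoped ContDiff

theorem PSA_open : IsOpen HH := by
  have h : Continuous fun p : ℝ × ℝ × ℝ => p.2.2 := by fun_prop
  exact isOpen_lt continuous_const h

/-- PSA: the class is closed under directional derivatives. -/
theorem PSA : PSA_stmt := by
  intro F hF v
  refine ⟨fun k => ?_, fun p0 hp0 => ?_⟩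
  · have h := (hF.1 k).fderiv_of_isOpen (m := ∞) PSA_open (by simp)
    exact h.clm_apply contDiffOn_const
  · obtain ⟨V, δ, k0, G, hV, hpV, hVH, hδ, hk0, hk0δ, hG, hFG⟩ := hF.2 p0 hp0
    have hO : IsOpen (Set.Ioo (-δ) δ ×ˢ V) := isOpen_Ioo.prod hV
    refine ⟨V, δ, k0, fun q => fderiv ℝ G q (0, v), hV, hpV, hVH, hδ, hk0, hk0δ, ?_, ?_⟩
    · have h := hG.fderiv_of_isOpen (m := ∞) hO (by simp)
      exact h.clm_apply contDiffOn_const
    · intro k hk p hp
      have hk0' : (1 : ℝ) ≤ (k0 : ℝ) := by exact_mod_cast hk0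
      have hkR : (k0 : ℝ) ≤ |(k : ℝ)| := by exact_mod_cast hk
      have hτ : |1 / (k : ℝ)| < δ := by
        rw [abs_div, abs_one]
        refine lt_of_le_of_lt ?_ hk0δ
        exact one_div_le_one_div_of_le (by linarith) hkR
      have hmem : ((1 / (k : ℝ), p) : ℝ × (ℝ × ℝ × ℝ)) ∈ Set.Ioo (-δ) δ ×ˢ V :=
        ⟨abs_lt.1 hτ, hp⟩
      have hGd : HasFDerivAt G (fderiv ℝ G (1 / (k : ℝ), p)) (1 / (k : ℝ), p) :=
        ((hG.contDiffAt (hO.mem_nhds hmem)).differentiableAt (by simp)).hasFDerivAt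
      have h1 : HasFDerivAt (fun q : ℝ × ℝ × ℝ => G (1 / (k : ℝ), q))
          ((fderiv ℝ G (1 / (k : ℝ), p)).comp (ContinuousLinearMap.inr ℝ ℝ (ℝ × ℝ × ℝ))) p :=
        hGd.comp p (hasFDerivAt_prodMk_right (1 / (k : ℝ)) p)
      have h2 : HasFDerivAt (fun q : ℝ × ℝ × ℝ => 1 / (k : ℝ) ^ 2 * G (1 / (k : ℝ), q))
          ((1 / (k : ℝ) ^ 2) • ((fderiv ℝ G (1 / (k : ℝ), p)).comp
            (ContinuousLinearMap.inr ℝ ℝ (ℝ × ℝ × ℝ)))) p := h1.const_mul _
      have h3 : HasFDerivAt (F k) ((1 / (k : ℝ) ^ 2) • ((fderiv ℝ G (1 / (k : ℝ), p)).comp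
            (ContinuousLinearMap.inr ℝ ℝ (ℝ × ℝ × ℝ)))) p := by
        refine h2.congr_of_eventuallyEq ?_
        filter_upwards [hV.mem_nhds hp] with q hq
        exact hFG k hk q hq
      show fderiv ℝ (F k) p v = _
      rw [h3.fderiv]
      rfl

end SF
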