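import Pool.Agent.helper68.SF.SpecW

/-! # Project sf: WC, decay of the wave at the cusp -/

set_option autoImplicit false

namespace SF

open scoped ContDiff

theorem WC_open : IsOpen {p : ℝ × ℝ × ℝ | 0 < p.2.2} := by
  have h : Continuous fun p : ℝ × ℝ × ℝ => p.2.2 := by fun_prop
  exact isOpen_lt continuous_const h

theorem WC_b0 {g : ℝ → ℝ} (hg : Prof g) {s Y : ℝ}
    (h : Real.exp (2 * s) * Y ≤ 1 ∨ 3 ≤ Real.exp (2 * s) * Y) : b0 g s Y = 0 := by
  unfold b0
  rcases h with h | h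
  · rw [hg.lo _ h, mul_zero]
  · rw [hg.hi _ h, mul_zero]

theorem WC_Y {u : ℤ × ℤ} (hu : u.1 ≠ 0) (x : ℝ) {y : ℝ} (hy : 0 < y) :
    0 < YY u x y ∧ YY u x y ≤ 1 / y := by
  have h1 : (1 : ℝ) ≤ (u.1 : ℝ) ^ 2 := by
    have h2 : (1 : ℤ) ≤ u.1 ^ 2 := by
      have := Int.one_le_abs hu
      nlinarith [sq_abs u.1, abs_nonneg u.1]
    exact_mod_cast h2
  have h3 : y ^ 2 ≤ ((u.1 : ℝ) * x + u.2) ^ 2 + ((u.1 : ℝ) * y) ^ 2 := by
    nlinarith [sq_nonneg ((u.1 : ℝ) * x + u.2), mul_le_mul_of_nonneg_right h1 (sq_nonneg y)]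
  have h4 : 0 < y ^ 2 := by positivity
  unfold YY Yr
  refine ⟨div_pos hy (by linarith), ?_⟩
  rw [div_le_div_iff₀ (by linarith) hy]
  nlinarith

theorem WC_exp {S s y : ℝ} (hs : |s| ≤ S) (hy : 75 * Real.exp (2 * S) ≤ y) :
    1 ≤ y ∧ 75 ≤ Real.exp (2 * s) * y ∧ Real.exp (2 * s) * (1 / y) ≤ 1 / 75 := by
  obtain ⟨h1, h2⟩ := abs_le.1 hs
  have hS : 0 ≤ S := le_trans (abs_nonneg s) hs
  have e1 : 1 ≤ Real.exp (2 * S) := Real.one_le_exp (by linarith)
  have e2 : Real.exp (2 * s) ≤ Real.exp (2 * S) := Real.exp_le_exp.2 (by linarith)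
  have e3 : 1 ≤ Real.exp (2 * s) * Real.exp (2 * S) := by
    rw [← Real.exp_add]
    exact Real.one_le_exp (by linarith)
  have hy0 : 0 < y := by linarith
  refine ⟨by linarith, ?_, ?_⟩
  · have := mul_le_mul_of_nonneg_left hy (Real.exp_pos (2 * s)).le
    nlinarith
  · rw [mul_one_div, div_le_div_iff₀ hy0 (by norm_num)]
    linarith

/-- `β₁` vanishes at the pairs in the high regime -/
theorem WC_b1 (hMH : MH_stmt) (hMG : MG_stmt) {g : ℝ → ℝ} (hg : Prof g) {S s x y : ℝ}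
    (hs : |s| ≤ S) (hy : 75 * Real.exp (2 * S) ≤ y) {v : ℤ × ℤ} (hv : v ∈ Pv) (m : ℤ)
    (hm : IsCoprime (5 : ℤ) m) : b1 g s (XX v x y + m / 5) (YY v x y) = 0 := by
  obtain ⟨h1, h2, h3⟩ := WC_exp hs hy
  have hy0 : 0 < y := by linarith
  rw [hMH g hg v hv m s x y hy0]
  set u : ℤ × ℤ := (5 : ℤ) • cpl v + m • v with hu
  by_cases hu1 : u.1 = 0
  · have h4 : dt (cpl v) v = 1 := hMG.1 v hv
    have e1 : u.1 = 5 * (cpl v).1 + m * v.1 := by simp [hu]
    have e2 : u.2 = 5 * (cpl v).2 + m * v.2 := by simp [hu]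
    unfold dt at h4
    have h5 : u.2 ∣ 5 := by
      refine ⟨-v.1, ?_⟩
      rw [e1] at hu1
      rw [e2]
      linear_combination (-5) * h4 + v.2 * hu1
    have h6 : u.2 ∣ m := by
      refine ⟨(cpl v).1, ?_⟩
      rw [e1] at hu1
      rw [e2]
      linear_combination (-m) * h4 - (cpl v).2 * hu1
    have h7 : IsUnit u.2 := hm.isUnit_of_dvd' h5 h6
    have h8 : (u.2 : ℝ) ^ 2 = 1 := by
      have h9 : u.2 ^ 2 = 1 := by
        rcases Int.isUnit_iff.1 h7 with h | h <;> rw [h] <;> norm_num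
      exact_mod_cast h9
    apply WC_b0 hg
    right
    have h10 : YY u x y = y := by
      unfold YY Yr
      rw [hu1]
      simp [h8]
    rw [h10]
    linarith
  · obtain ⟨h4, h5⟩ := WC_Y hu1 x hy0
    apply WC_b0 hg
    left
    have := mul_le_mul_of_nonneg_left h5 (Real.exp_pos (2 * s)).le
    linarith

/-- the terms with `v.1 ≠ 0` vanish for large `y` -/
theorem WC_FF (hRH : RH_stmt) (hMH : MH_stmt) (hMG : MG_stmt) {g : ℝ → ℝ} (hg : Prof g)
    {S s x y : ℝ} (hs : |s| ≤ S) (hy : 75 * Real.exp (2 * S) ≤ y) {v : ℤ × ℤ} (hv : v ∈ Pv)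
    (hv1 : v.1 ≠ 0) : FF g v s x y = 0 := by
  obtain ⟨h1, h2, h3⟩ := WC_exp hs hy
  have hy0 : 0 < y := by linarith
  obtain ⟨h4, h5⟩ := WC_Y hv1 x hy0
  have h6 : b0 g s (YY v x y) = 0 := by
    apply WC_b0 hg
    left
    have := mul_le_mul_of_nonneg_left h5 (Real.exp_pos (2 * s)).le
    linarith
  have h7 : 3 ≤ Real.exp (2 * s) / (25 * YY v x y) := by
    rw [le_div_iff₀ (by linarith)]
    have h8 : YY v x y * y ≤ 1 := by
      have := mul_le_mul_of_nonneg_right h5 hy0.le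
      rwa [one_div, inv_mul_cancel₀ hy0.ne'] at this
    have h9 : 75 * YY v x y ≤ Real.exp (2 * s) * y * YY v x y :=
      mul_le_mul_of_nonneg_right h2 h4.le
    have h10 : Real.exp (2 * s) * (YY v x y * y) ≤ Real.exp (2 * s) * 1 :=
      mul_le_mul_of_nonneg_left h8 (Real.exp_pos _).le
    nlinarith
  unfold FF RR
  rw [h6, mul_zero, zero_add]
  have h8 : ∀ k : ℤ, Bk g s (XX v x y) (YY v x y) (XX v 0 1) k = 0 := by
    intro k
    rw [hRH g hg s (XX v x y) (YY v x y) (XX v 0 1) k h4 h7]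
    have hb : ∀ j : ℤ, IsCoprime (5 : ℤ) j →
        b1 g s (XX v x y + k + (j : ℝ) / 5) (YY v x y) = 0 := by
      intro j hj
      have h9 := WC_b1 hMH hMG hg (x := x) hs hy hv (5 * k + j) (by
        have := hj.mul_add_left_right k
        exact this)
      have h10 : XX v x y + k + (j : ℝ) / 5 = XX v x y + ((5 * k + j : ℤ) : ℝ) / 5 := by
        push_cast
        ring
      rw [h10]
      exact h9
    have b1' := hb 1 (by norm_num)
    have b2' := hb 2 ⟨1, -2, by norm_num⟩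
    have b3' := hb 3 ⟨-1, 2, by norm_num⟩
    have b4' := hb 4 ⟨1, -1, by norm_num⟩
    push_cast at b1' b2' b3' b4'
    unfold c5
    simp only
    rw [b1', b2', b3', b4']
    ring
  rw [tsum_congr h8, tsum_zero]

/-- the other terms -/
theorem WC_FF0 (hRO : RO_stmt) (hMG : MG_stmt) {g : ℝ → ℝ} (hg : Prof g)
    {S s x y : ℝ} (hs : |s| ≤ S) (hy : 75 * Real.exp (2 * S) ≤ y) {v : ℤ × ℤ} (hv : v ∈ Pv)
    (hv1 : v.1 = 0) : FF g v s x y = RR g s x y 0 := by
  obtain ⟨h1, h2, h3⟩ := WC_exp hs hy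
  have hy0 : 0 < y := by linarith
  have h4 : dt (cpl v) v = 1 := hMG.1 v hv
  unfold dt at h4
  rw [hv1, mul_zero, sub_zero] at h4
  have h5 : (v.2 : ℝ) ^ 2 = 1 := by
    have h6 : IsUnit v.2 := IsUnit.of_mul_eq_one _ (by rw [mul_comm]; exact h4)
    have h9 : v.2 ^ 2 = 1 := by
      rcases Int.isUnit_iff.1 h6 with h | h <;> rw [h] <;> norm_num
    exact_mod_cast h9
  have hY : YY v x y = y := by
    unfold YY Yr
    rw [hv1]
    simp [h5]
  have hX : ∀ x y : ℝ, XX v x y = x + (((cpl v).2 * v.2 : ℤ) : ℝ) := by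
    intro x y
    have h7 : ((cpl v).1 : ℝ) * (v.2 : ℝ) = 1 := by exact_mod_cast h4
    have h8 : XX v x y = Xr (cpl v).1 (cpl v).2 v.1 v.2 x y := by
      unfold XX cpl
      simp
    rw [h8]
    unfold Xr
    rw [hv1]
    simp only [Int.cast_zero, zero_mul, mul_zero, zero_add, add_zero]
    rw [h5]
    push_cast
    linear_combination x * h7
  unfold FF
  rw [hY, hX, hX, WC_b0 hg (Or.inr (by linarith)), mul_zero, zero_add]
  have h9 := (hRO g hg s x y 0 hy0).2 ((cpl v).2 * v.2)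
  exact h9

theorem WC_Pv0 {v : ℤ × ℤ} (hv : v ∈ Pv) (h : v.1 = 0) : v = (0, 1) ∨ v = (0, -1) := by
  have h1 : Int.gcd v.1 v.2 = 1 := hv
  rw [h] at h1
  have h2 : v.2.natAbs = 1 := by simpa using h1
  rcases Int.natAbs_eq_iff.1 h2 with h3 | h3
  · left
    exact Prod.ext h (by simpa using h3)
  · right
    exact Prod.ext h (by simpa using h3)

/-- the wave for large `y` -/
theorem WC_ww (hRH : RH_stmt) (hRO : RO_stmt) (hMH : MH_stmt) (hMG : MG_stmt) {g : ℝ → ℝ}
    (hg : Prof g) {S s x y : ℝ} (hs : |s| ≤ S) (hy : 75 * Real.exp (2 * S) ≤ y) :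
    ww g s x y = RR g s x y 0 := by
  classical
  unfold ww
  have h1 : ∑ᶠ v ∈ Pv, FF g v s x y = ∑ v ∈ ({(0, 1), (0, -1)} : Finset (ℤ × ℤ)), FF g v s x y := by
    refine finsum_mem_eq_sum_of_inter_support_eq _ ?_
    ext v
    constructor
    · rintro ⟨hv1, hv2⟩
      refine ⟨?_, hv2⟩
      have hv0 : v.1 = 0 := by
        by_contra hne
        exact hv2 (WC_FF hRH hMH hMG hg hs hy hv1 hne)
      rcases WC_Pv0 hv1 hv0 with h | h <;> simp [h]
    · rintro ⟨hv1, hv2⟩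
      refine ⟨?_, hv2⟩
      have : v = (0, 1) ∨ v = (0, -1) := by simpa using hv1
      rcases this with h | h
      · rw [h]
        show Int.gcd 0 1 = 1
        simp
      · rw [h]
        show Int.gcd 0 (-1) = 1
        simp
  have e1 : ((0, 1) : ℤ × ℤ) ∈ Pv := by
    show Int.gcd 0 1 = 1
    simp
  have e2 : ((0, -1) : ℤ × ℤ) ∈ Pv := by
    show Int.gcd 0 (-1) = 1
    simp
  rw [h1, Finset.sum_pair (by simp), WC_FF0 hRO hMG hg hs hy e1 rfl,
    WC_FF0 hRO hMG hg hs hy e2 rfl]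
  ring

/-- profiles have bounds -/
theorem WC_Bd {g : ℝ → ℝ} (hg : Prof g) : ∃ B : ℝ, Bd 4 B g := by
  have h1 : ∀ j : ℕ, ∃ B : ℝ, ∀ a, |iteratedDeriv j g a| ≤ B := by
    intro j
    have hc : Continuous (iteratedDeriv j g) :=
      hg.smooth.continuous_iteratedDeriv j (by exact_mod_cast le_top)
    have hs : HasCompactSupport g := by
      refine HasCompactSupport.intro (isCompact_Icc (a := (1 : ℝ)) (b := 3)) fun a ha => ?_
      rw [Set.mem_Icc, not_and_or, not_le, not_le] at ha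
      rcases ha with ha | ha
      · exact hg.lo a ha.le
      · exact hg.hi a ha.le
    have hs2 : HasCompactSupport (iteratedDeriv j g) := by
      induction j with
      | zero => simpa using hs
      | succ j ih =>
        rw [iteratedDeriv_succ]
        exact HasCompactSupport.deriv (ih (hg.smooth.continuous_iteratedDeriv j
          (by exact_mod_cast le_top)))
    obtain ⟨B, hB⟩ := hs2.exists_bound_of_continuous hc
    exact ⟨B, fun a => hB a⟩
  choose B hB using h1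
  refine ⟨∑ j ∈ Finset.range 5, |B j|, fun j hj a => ?_⟩
  refine (hB j a).trans ((le_abs_self _).trans ?_)
  exact Finset.single_le_sum (f := fun j => |B j|) (fun _ _ => abs_nonneg _)
    (Finset.mem_range.2 (by omega))

/-- bounds on a compact region -/
theorem WC_cpt {f : ℝ → ℝ → ℝ → ℝ} (hf : Sm f) (S Y : ℝ) :
    ∃ C : ℝ, ∀ s x y : ℝ, |s| ≤ S → |x| ≤ 1 / 2 → 1 ≤ y → y ≤ Y → |f s x y| ≤ C := by
  have hK : IsCompact (Set.Icc (-S) S ×ˢ (Set.Icc (-(1 / 2) : ℝ) (1 / 2) ×ˢ Set.Icc 1 Y)) :=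
    isCompact_Icc.prod (isCompact_Icc.prod isCompact_Icc)
  have hc : ContinuousOn (fun p : ℝ × ℝ × ℝ => f p.1 p.2.1 p.2.2)
      (Set.Icc (-S) S ×ˢ (Set.Icc (-(1 / 2) : ℝ) (1 / 2) ×ˢ Set.Icc 1 Y)) := by
    refine hf.continuousOn.mono ?_
    rintro ⟨s, x, y⟩ ⟨_, _, h3⟩
    have h4 : (1 : ℝ) ≤ y := h3.1
    show 0 < y
    linarith
  obtain ⟨C, hC⟩ := hK.exists_bound_of_continuousOn hc
  refine ⟨C, fun s x y hs hx hy1 hy2 => ?_⟩
  exact hC (s, x, y) ⟨abs_le.1 hs, abs_le.1 hx, hy1, hy2⟩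

theorem WC_per {F : ℝ → ℝ} (h : ∀ x, F (x + 1) = F x) (x : ℝ) : F (x - round x) = F x := by
  have h1 : Function.Periodic F 1 := h
  have h2 := h1.sub_int_mul_eq (x := x) (round x)
  rwa [mul_one] at h2

theorem WC (hRB : RB_stmt) (hRO : RO_stmt) (hRH : RH_stmt) (hMH : MH_stmt) (hMG : MG_stmt)
    (hWI : WI_stmt) (hWS : WS_stmt) (hBS : BS_stmt) : WC_stmt := by
  intro g hg S
  obtain ⟨C0, hC0, hC⟩ := hRB
  obtain ⟨B, hB⟩ := WC_Bd hg
  have hB0 : 0 ≤ B := (abs_nonneg _).trans (hB 0 (by norm_num) 0)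
  have hSm : Sm (ww g) := (hWS g hg).1
  obtain ⟨_, hSX, hSY, _⟩ := hBS _ hSm
  set Y0 : ℝ := 75 * Real.exp (2 * S) + 1 with hY0
  have hY0p : 0 < Y0 := by positivity
  obtain ⟨C1, h1⟩ := WC_cpt hSm S Y0
  obtain ⟨C2, h2⟩ := WC_cpt hSX S Y0
  obtain ⟨C3, h3⟩ := WC_cpt hSY S Y0
  set M0 : ℝ := C0 * B * Real.exp S * (1 + Real.exp (2 * S)) ^ 4 with hM0
  have hM0p : 0 ≤ M0 := by positivity
  refine ⟨M0 + |C1| * Y0 + |C2| * Y0 ^ 2 + |C3| * Y0 ^ 2, ?_⟩
  intro s x y hs hy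
  have hy0 : 0 < y := by linarith
  have hT1 : 0 ≤ |C1| * Y0 := by positivity
  have hT2 : 0 ≤ |C2| * Y0 ^ 2 := by positivity
  have hT3 : 0 ≤ |C3| * Y0 ^ 2 := by positivity
  by_cases hyY : y ≤ Y0
  · have hper : ∀ x y : ℝ, 0 < y → ww g s (x + 1) y = ww g s x y := fun x y hy =>
      (hWI g hg s x y hy).2
    have hr : |x - round x| ≤ 1 / 2 := abs_sub_round x
    have e1 : ww g s (x - round x) y = ww g s x y :=
      WC_per (F := fun x => ww g s x y) (fun x => hper x y hy0) x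
    have e2 : dX (ww g) s (x - round x) y = dX (ww g) s x y := by
      refine WC_per (F := fun x => dX (ww g) s x y) (fun x => ?_) x
      unfold dX
      have h4 : (fun t => ww g s t y) = fun t => ww g s (t + 1) y :=
        funext fun t => (hper t y hy0).symm
      conv_rhs => rw [h4]
      exact (deriv_comp_add_const (fun t => ww g s t y) 1 x).symm
    have e3 : dY (ww g) s (x - round x) y = dY (ww g) s x y := by
      refine WC_per (F := fun x => dY (ww g) s x y) (fun x => ?_) x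
      unfold dY
      refine Filter.EventuallyEq.deriv_eq ?_
      filter_upwards [lt_mem_nhds hy0] with t ht
      exact hper x t ht
    have b1 := h1 s (x - round x) y hs hr hy hyY
    have b2 := h2 s (x - round x) y hs hr hy hyY
    have b3 := h3 s (x - round x) y hs hr hy hyY
    rw [e1] at b1
    rw [e2] at b2
    rw [e3] at b3
    have hy2 : y ^ 2 ≤ Y0 ^ 2 := by gcongr
    refine ⟨?_, ?_, ?_⟩
    · rw [le_div_iff₀ hy0]
      have : |ww g s x y| * y ≤ |C1| * Y0 :=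
        mul_le_mul (b1.trans (le_abs_self _)) hyY hy0.le (abs_nonneg _)
      linarith
    · rw [le_div_iff₀ (by positivity)]
      have : |dX (ww g) s x y| * y ^ 2 ≤ |C2| * Y0 ^ 2 :=
        mul_le_mul (b2.trans (le_abs_self _)) hy2 (by positivity) (abs_nonneg _)
      linarith
    · rw [le_div_iff₀ (by positivity)]
      have : |dY (ww g) s x y| * y ^ 2 ≤ |C3| * Y0 ^ 2 :=
        mul_le_mul (b3.trans (le_abs_self _)) hy2 (by positivity) (abs_nonneg _)
      linarith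
  · have hyY' : 75 * Real.exp (2 * S) < y := by linarith [not_le.1 hyY]
    have e1 : ∀ x y, 75 * Real.exp (2 * S) ≤ y → ww g s x y = RR g s x y 0 := fun x y hy =>
      WC_ww hRH hRO hMH hMG hg hs hy
    have e2 : dX (ww g) s x y = dX (fun s x y => RR g s x y 0) s x y := by
      unfold dX
      have h4 : (fun t => ww g s t y) = fun t => RR g s t y 0 := funext fun t => e1 t y hyY'.le
      rw [h4]
    have e3 : dY (ww g) s x y = dY (fun s x y => RR g s x y 0) s x y := by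
      unfold dY
      refine Filter.EventuallyEq.deriv_eq ?_
      filter_upwards [lt_mem_nhds hyY'] with t ht
      exact e1 x t ht.le
    obtain ⟨b1, b2, b3⟩ := hC g B hg hB s x y 0 hy0
    obtain ⟨hs1, hs2⟩ := abs_le.1 hs
    have hS : 0 ≤ S := le_trans (abs_nonneg s) hs
    have hM : C0 * B * Real.exp s * (1 + Real.exp (2 * s) / (25 * y)) ^ 4 ≤ M0 := by
      rw [hM0]
      have f1 : Real.exp s ≤ Real.exp S := Real.exp_le_exp.2 hs2
      have f2 : Real.exp (2 * s) / (25 * y) ≤ Real.exp (2 * S) := by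
        rw [div_le_iff₀ (by linarith)]
        have f3 : Real.exp (2 * s) ≤ Real.exp (2 * S) := Real.exp_le_exp.2 (by linarith)
        have f4 : (0 : ℝ) ≤ Real.exp (2 * S) := (Real.exp_pos _).le
        nlinarith
      have f5 : 0 ≤ Real.exp (2 * s) / (25 * y) := by positivity
      gcongr
    set M := C0 * B * Real.exp s * (1 + Real.exp (2 * s) / (25 * y)) ^ 4 with hMd
    refine ⟨?_, ?_, ?_⟩
    · rw [e1 x y hyY'.le]
      refine b1.trans ?_
      gcongr
      linarith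
    · rw [e2]
      refine b2.trans ?_
      gcongr
      linarith
    · rw [e3]
      refine b3.trans ?_
      gcongr
      linarith

end SF
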