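import Pool.Agent.helper72.SF.SpecT

/-! # Project sf: T5, lengths at the nodes -/

set_option autoImplicit false

namespace SF

open Pool.Agent.helper72.Sq AM

theorem T5_append (w s : List Bool) : ∀ P : Tri, desc (w ++ s) P = desc s (desc w P) := by
  induction w with
  | nil => intro P; rfl
  | cons b w ih =>
    intro P
    cases b
    · exact ih (Rm P)
    · exact ih (Lm P)

/-- the inequalities at a node -/
theorem T5_node (x y z C : ℝ)
    (h : ∀ s : List Bool, |len (desc s (x, y, z)).1 + len (desc s (x, y, z)).2.1 -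
      len (desc s (x, y, z)).2.2| ≤ C) :
    (|ec (x, y, z) - len (desc [true, false, false] (x, y, z)).2.2| ≤ 20 * C ∧
     |ec (Tw (desc [true, true] (x, y, z))) - len (desc [true, false, false, false] (x, y, z)).2.2| ≤ 20 * C ∧
     |ec (Tw (desc [false, true] (x, y, z))) - len (desc [false, true, false] (x, y, z)).2.2| ≤ 20 * C ∧
     |ec (Tw (desc [true, false] (x, y, z))) - len (desc [true, false, false] (x, y, z)).2.2| ≤ 20 * C ∧
     |ec (Tw (desc [true, false, false] (x, y, z))) -
       len (desc [true, false, false, false] (x, y, z)).2.2| ≤ 20 * C ∧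
     |ec (Tw (desc [false, false, false] (x, y, z))) - len (desc [false, true, false] (x, y, z)).2.2| ≤ 20 * C) ∧
    (|ec (Sv (x, y, z)) - len (desc [false, true, true] (x, y, z)).2.2| ≤ 20 * C ∧
     |ec (Nv (desc [false, false] (x, y, z))) - len (desc [false, true, true, true] (x, y, z)).2.2| ≤ 20 * C ∧
     |ec (Nv (desc [true, false] (x, y, z))) - len (desc [true, false, true] (x, y, z)).2.2| ≤ 20 * C ∧
     |ec (Nv (desc [false, true] (x, y, z))) - len (desc [false, true, true] (x, y, z)).2.2| ≤ 20 * C ∧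
     |ec (Nv (desc [false, true, true] (x, y, z))) -
       len (desc [false, true, true, true] (x, y, z)).2.2| ≤ 20 * C ∧
     |ec (Nv (desc [true, true, true] (x, y, z))) - len (desc [true, false, true] (x, y, z)).2.2| ≤ 20 * C) := by
  have h0 := h []
  have hT := h [true]
  have hF := h [false]
  have hTT := h [true, true]
  have hTF := h [true, false]
  have hFT := h [false, true]
  have hFF := h [false, false]
  have hTFF := h [true, false, false]
  have hTFFF := h [true, false, false, false]
  have hTFT := h [true, false, true]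
  have hFTF := h [false, true, false]
  have hFTT := h [false, true, true]
  have hFTTT := h [false, true, true, true]
  have hFFT := h [false, false, true]
  have hTTF := h [true, true, false]
  simp only [desc, Lm, Rm] at h0 hT hF hTT hTF hFT hFF hTFF hTFFF hTFT hFTF hFTT hFTTT hFFT hTTF
  simp only [desc, Lm, Rm, Tw, Nv, Sv, ec]
  have hC : 0 ≤ C := (abs_nonneg _).trans h0
  set a := x * z - y with ha
  set b := z * y - x with hb
  set c := x * a - z with hc
  set d := a * z - x with hd
  set e := z * b - y with he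
  set f := b * y - z with hf
  -- the polynomials of `ec`
  have p1 : (x ^ 2 - 1) * z - x * y = c := by rw [hc, ha]; ring
  have p2 : y * z - x = b := by rw [hb]; ring
  have p3 : (a ^ 2 - 1) * (x * a - c) - a * x = a * d - z := by rw [hc, hd]; ring
  have p4 : x * (x * a - c) - a = y := by rw [hc, ha]; ring
  have p5 : (b ^ 2 - 1) * (z * b - e) - b * z = b * f - y := by rw [he, hf]; ring
  have p6 : z * (z * b - e) - b = x := by rw [he, hb]; ring
  have p7 : (z ^ 2 - 1) * (a * z - d) - z * a = b := by rw [hd, ha, hb]; ring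
  have p8 : a * (a * z - d) - z = c := by rw [hd, hc]; ring
  have p9 : (z ^ 2 - 1) * (d * z - (d * z - a)) - z * d = y := by rw [hd, ha]; ring
  have p10 : d * (d * z - (d * z - a)) - z = a * d - z := by ring
  have p11 : (y ^ 2 - 1) * (f * y - (f * y - b)) - y * f = x := by rw [hf, hb]; ring
  have p12 : f * (f * y - (f * y - b)) - y = b * f - y := by ring
  have q1 : (y ^ 2 - 1) * z - y * x = f := by rw [hf, hb]; ring
  have q3 : (b ^ 2 - 1) * (b * y - f) - b * y = e * b - z := by rw [hf, he]; ring
  have q4 : y * (b * y - f) - b = x := by rw [hf, hb]; ring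
  have q5 : (a ^ 2 - 1) * (a * z - d) - a * z = c * a - x := by rw [hd, hc]; ring
  have q6 : z * (a * z - d) - a = y := by rw [hd, ha]; ring
  have q7 : (z ^ 2 - 1) * (z * b - e) - z * b = a := by rw [he, hb, ha]; ring
  have q8 : b * (z * b - e) - z = f := by rw [he, hf]; ring
  have q9 : (z ^ 2 - 1) * (z * e - (z * e - b)) - z * e = x := by rw [he, hb]; ring
  have q10 : e * (z * e - (z * e - b)) - z = e * b - z := by ring
  have q11 : (x ^ 2 - 1) * (x * c - (x * c - a)) - x * c = y := by rw [hc, ha]; ring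
  have q12 : c * (x * c - (x * c - a)) - x = c * a - x := by ring
  rw [p1, p2, p3, p4, p5, p6, p7, p8, p9, p10, p11, p12, q1, q3, q4, q5, q6, q7, q8, q9, q10, q11,
    q12]
  simp only [abs_le] at h0 hT hF hTT hTF hFT hFF hTFF hTFFF hTFT hFTF hFTT hFTTT hFFT hTTF ⊢
  refine ⟨⟨⟨?_, ?_⟩, ⟨?_, ?_⟩, ⟨?_, ?_⟩, ⟨?_, ?_⟩, ⟨?_, ?_⟩, ⟨?_, ?_⟩⟩,
    ⟨⟨?_, ?_⟩, ⟨?_, ?_⟩, ⟨?_, ?_⟩, ⟨?_, ?_⟩, ⟨?_, ?_⟩, ⟨?_, ?_⟩⟩⟩ <;> linarith

/-- T5: lengths at the nodes. -/
theorem T5 (hXB : XB_stmt) : T5_stmt := by
  intro P hP
  obtain ⟨C, hC⟩ := hXB P hP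
  refine ⟨20 * C, fun w => ?_⟩
  have h := T5_node (desc w P).1 (desc w P).2.1 (desc w P).2.2 C (fun s => by
    have h1 := hC (w ++ s)
    rw [T5_append] at h1
    exact h1)
  unfold zl
  simp only [T5_append]
  exact h

end SF
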