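import Pool.Agent.helper1.SF.SpecA

/-!
# Project SF, module PKD: the moment of a packet
-/

set_option autoImplicit false

namespace SF

open Pool.Agent.helper72.Sq MeasureTheory Set
open scoped ContDiff

theorem PKD_cont : Continuous eta := by
  unfold eta
  exact Real.smoothTransition.continuous.comp (by fun_prop)

theorem PKD_one {u : ℝ} (h : u ≤ 1 / 4) : eta u = 1 :=
  Real.smoothTransition.one_of_one_le (by linarith)

theorem PKD_zero {u : ℝ} (h : 1 / 2 ≤ u) : eta u = 0 :=
  Real.smoothTransition.zero_of_nonpos (by linarith)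

/-- A primitive of `η (u) / u`. -/
noncomputable def PKD_H (w : ℝ) : ℝ := ∫ u in (1 : ℝ)..w, eta u / u

theorem PKD_con : ContinuousOn (fun u => eta u / u) (Ioi 0) :=
  PKD_cont.continuousOn.div continuousOn_id (fun _ hx => (ne_of_gt hx))

theorem PKD_int {a b : ℝ} (ha : 0 < a) (hb : 0 < b) :
    IntervalIntegrable (fun u => eta u / u) volume a b := by
  apply ContinuousOn.intervalIntegrable
  apply PKD_con.mono
  intro x hx
  exact lt_of_lt_of_le (lt_min ha hb) hx.1

theorem PKD_der {w : ℝ} (hw : 0 < w) : HasDerivAt PKD_H (eta w / w) w := by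
  apply intervalIntegral.integral_hasDerivAt_right (PKD_int one_pos hw)
  · exact PKD_con.stronglyMeasurableAtFilter isOpen_Ioi w hw
  · exact PKD_con.continuousAt (Ioi_mem_nhds hw)

theorem PKD_sub {a b : ℝ} (ha : 0 < a) (hb : 0 < b) :
    PKD_H b - PKD_H a = ∫ u in a..b, eta u / u := by
  unfold PKD_H
  rw [intervalIntegral.integral_interval_sub_left (PKD_int one_pos hb) (PKD_int one_pos ha)]

theorem PKD_form (k : ℕ) {a : ℝ} (ha : 1 < a) :
    pk k a = √(a - 1) / a * (eta (2 ^ k * (1 - 1 / a)) - eta (2 * (2 ^ k * (1 - 1 / a)))) := by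
  unfold pk E0
  rw [if_pos ha]
  have h0 : 0 < a := by linarith
  have hN : (0 : ℝ) < 2 ^ k := by positivity
  have h1 : √(2 ^ k * (1 - 1 / a)) / √(2 ^ k * a) = √(a - 1) / a := by
    rw [← Real.sqrt_div' _ (by positivity)]
    have e : 2 ^ k * (1 - 1 / a) / (2 ^ k * a) = (a - 1) / a ^ 2 := by
      field_simp
    rw [e, Real.sqrt_div' _ (by positivity), Real.sqrt_sq h0.le]
  rw [← h1]
  ring

theorem PKD (hPKA : PKA_stmt) : PKD_stmt := by
  intro k
  obtain ⟨-, -, hP⟩ := hPKA
  obtain ⟨hpr, hκ, hκ8, hsup⟩ := hP k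
  set κ : ℝ := 1 / 2 ^ (k + 3) with hκd
  set g := pk k with hg
  set a0 : ℝ := 1 + κ / 2 with ha0
  have ha01 : 1 < a0 := by rw [ha0]; linarith
  have ha02 : a0 ≤ 2 := by rw [ha0]; linarith
  have hN : (1 : ℝ) ≤ 2 ^ k := one_le_pow₀ (by norm_num)
  have hNκ : (2 : ℝ) ^ k * κ = 1 / 8 := by
    rw [hκd, pow_add]
    field_simp
    norm_num
  have hd0 : ∀ σ, σ ≤ a0 → deriv g σ = 0 := by
    intro σ hσ
    have h1 : g =ᶠ[nhds σ] fun _ => 0 := by
      have h2 : Iio (1 + κ) ∈ nhds σ := Iio_mem_nhds (by rw [ha0] at hσ; linarith)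
      filter_upwards [h2] with x hx
      exact hsup x (Or.inl (le_of_lt hx))
    rw [h1.deriv_eq]
    simp
  have hz : ∀ σ ∈ uIcc 1 a0, deriv g σ / √(σ - 1) = 0 := by
    intro σ hσ
    rw [uIcc_of_le ha01.le] at hσ
    rw [hd0 σ hσ.2, zero_div]
  have hi1 : IntervalIntegrable (fun σ => deriv g σ / √(σ - 1)) volume 1 a0 := by
    apply ContinuousOn.intervalIntegrable
    exact continuousOn_const.congr hz
  have hI1 : ∫ σ in (1 : ℝ)..a0, deriv g σ / √(σ - 1) = 0 := by
    rw [intervalIntegral.integral_congr (g := fun _ => (0 : ℝ)) hz]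
    simp
  have hdc : Continuous (deriv g) := hpr.smooth.continuous_deriv (by simp)
  have hi2 : IntervalIntegrable (fun σ => deriv g σ / √(σ - 1)) volume a0 2 := by
    apply ContinuousOn.intervalIntegrable
    rw [uIcc_of_le ha02]
    apply hdc.continuousOn.div (by fun_prop)
    intro x hx
    have : 0 < x - 1 := by linarith [hx.1]
    exact (Real.sqrt_pos.2 this).ne'
  rw [← intervalIntegral.integral_add_adjacent_intervals hi1 hi2, hI1, zero_add]
  set G : ℝ → ℝ := fun σ => g σ / √(σ - 1) +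
    1 / 2 * (PKD_H (2 ^ k * (1 - 1 / σ)) - PKD_H (2 * (2 ^ k * (1 - 1 / σ)))) with hG
  have hder : ∀ σ ∈ uIcc a0 2, HasDerivAt G (deriv g σ / √(σ - 1)) σ := by
    intro σ hσ
    rw [uIcc_of_le ha02] at hσ
    have h1 : 1 < σ := by linarith [hσ.1]
    have h0 : 0 < σ := by linarith
    have hs : 0 < σ - 1 := by linarith
    have hsq : 0 < √(σ - 1) := Real.sqrt_pos.2 hs
    have hv : 0 < 1 - 1 / σ := by
      rw [sub_pos, div_lt_one h0]
      exact h1
    have hdv : HasDerivAt (fun σ : ℝ => 1 - 1 / σ) (1 / σ ^ 2) σ := by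
      have := ((hasDerivAt_const σ (1 : ℝ)).sub ((hasDerivAt_id σ).fun_inv h0.ne'))
      simp only [one_div]
      refine this.congr_deriv ?_
      simp only [id]
      rw [neg_div, zero_sub, neg_neg, one_div]
    have hg1 : HasDerivAt g (deriv g σ) σ :=
      (hpr.smooth.differentiable (by simp) σ).hasDerivAt
    have hr : HasDerivAt (fun σ : ℝ => √(σ - 1)) (1 / (2 * √(σ - 1))) σ := by
      have := ((hasDerivAt_id σ).sub_const 1).sqrt hs.ne'
      simpa using this
    have hH1 : HasDerivAt (fun σ : ℝ => PKD_H (2 ^ k * (1 - 1 / σ)))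
        (eta (2 ^ k * (1 - 1 / σ)) / (2 ^ k * (1 - 1 / σ)) * (2 ^ k * (1 / σ ^ 2))) σ :=
      (PKD_der (by positivity)).comp σ (hdv.const_mul _)
    have hH2 : HasDerivAt (fun σ : ℝ => PKD_H (2 * (2 ^ k * (1 - 1 / σ))))
        (eta (2 * (2 ^ k * (1 - 1 / σ))) / (2 * (2 ^ k * (1 - 1 / σ))) *
          (2 * (2 ^ k * (1 / σ ^ 2)))) σ :=
      (PKD_der (by positivity)).comp σ ((hdv.const_mul _).const_mul _)
    have hall := (hg1.div hr hsq.ne').add ((hH1.sub hH2).const_mul (1 / 2 : ℝ))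
    refine hall.congr_deriv ?_
    rw [hg, PKD_form k h1, ← hg]
    have hq2 : √(σ - 1) ^ 2 = σ - 1 := Real.sq_sqrt hs.le
    set A := eta (2 ^ k * (1 - 1 / σ)) with hA
    set B := eta (2 * (2 ^ k * (1 - 1 / σ))) with hB
    set r := √(σ - 1) with hr'
    have hσr : σ = r ^ 2 + 1 := by linarith
    have hvr : 1 - 1 / σ = r ^ 2 / σ := by
      rw [hσr]
      field_simp
      ring
    rw [hvr]
    have h2k : (2 : ℝ) ^ k ≠ 0 := by positivity
    field_simp
    ring
  rw [intervalIntegral.integral_eq_sub_of_hasDerivAt hder hi2]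
  have hG2 : G 2 = 0 := by
    have h1 : g 2 = 0 := hsup 2 (Or.inr (by linarith))
    have h2 := PKD_sub (a := 2 ^ k * (1 - 1 / 2)) (b := 2 * (2 ^ k * (1 - 1 / 2)))
      (by positivity) (by positivity)
    have h3 : ∫ u in (2 ^ k * (1 - 1 / 2) : ℝ)..(2 * (2 ^ k * (1 - 1 / 2))), eta u / u = 0 := by
      rw [intervalIntegral.integral_congr (g := fun _ => (0 : ℝ))]
      · simp
      · intro u hu
        rw [uIcc_of_le (by linarith)] at hu
        have : eta u = 0 := PKD_zero (by linarith [hu.1])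
        simp [this]
    rw [h3] at h2
    simp only [hG, h1]
    rw [zero_div, zero_add]
    linarith
  have hG0 : G a0 = -(Real.log 2 / 2) := by
    have h1 : g a0 = 0 := hsup a0 (Or.inl (by rw [ha0]; linarith))
    have hv : 0 < 1 - 1 / a0 := by
      rw [sub_pos, div_lt_one (by linarith)]
      exact ha01
    have hv2 : 1 - 1 / a0 ≤ κ / 2 := by
      rw [sub_le_iff_le_add, ha0, ← sub_le_iff_le_add', le_div_iff₀ (by linarith)]
      nlinarith
    have hNv : (0 : ℝ) < 2 ^ k * (1 - 1 / a0) := by positivity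
    have h2 := PKD_sub (a := 2 ^ k * (1 - 1 / a0)) (b := 2 * (2 ^ k * (1 - 1 / a0)))
      hNv (by linarith)
    have h3 : ∫ u in (2 ^ k * (1 - 1 / a0) : ℝ)..(2 * (2 ^ k * (1 - 1 / a0))), eta u / u =
        Real.log 2 := by
      rw [intervalIntegral.integral_congr (g := fun u : ℝ => 1 / u)]
      · rw [integral_one_div_of_pos hNv (by linarith)]
        congr 1
        rw [mul_div_assoc, div_self hNv.ne', mul_one]
      · intro u hu
        rw [uIcc_of_le (by linarith)] at hu
        have h4 : 2 ^ k * (1 - 1 / a0) ≤ 2 ^ k * (κ / 2) :=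
          mul_le_mul_of_nonneg_left hv2 (by positivity)
        have : eta u = 1 := PKD_one (by linarith [hu.2])
        simp [this]
    rw [h3] at h2
    simp only [hG, h1]
    rw [zero_div, zero_add]
    linarith
  rw [hG2, hG0]
  ring

end SF
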